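import Pool.Agent.Helper29.AR.Props
import Pool.Agent.Helper10.RC.Homs
import Pool.Agent.Helper89.RC.CuSwap
import Pool.Agent.Helper8.RC.Cu1
import Pool.Agent.Helper6.RC.CuLeAdd

open scoped ENNReal NNReal InnerProductSpace ComplexOrder
open Filter Topology

attribute [-instance] CStarMatrix.instAlgebra CStarMatrix.instModule CStarMatrix.instSMul
  CStarMatrix.instMulAction CStarMatrix.instDistribMulAction

noncomputable section
namespace RC
universe u

namespace Coker94

variable {M : Type u} [CStarAlgebra M] [PartialOrder M] [StarOrderedRing M]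

theorem one1_inj {x y : M} (h : one1 x = one1 y) : x = y := by
  have := congrFun (congrFun h ()) ()
  exact this

theorem one1_mul (x y : M) : one1 (x * y) = one1 x * one1 y := map_mul (one1H (A := M)) x y

theorem one1_star (x : M) : one1 (star x) = (one1 x).conjTranspose := map_star (one1H (A := M)) x

theorem inter (y : M) (K : ℝ → ℝ) (hK : Continuous K) :
    y * cfc K (star y * y) = cfc K (y * star y) * y := by
  apply one1_inj
  have h := intP M Unit Unit (one1 y) K hK
  rw [← one1_star, ← one1_mul, ← one1_mul, ← one1_cfc K hK _ (IsSelfAdjoint.star_mul_self y),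
    ← one1_cfc K hK _ (IsSelfAdjoint.mul_star_self y), ← one1_mul, ← one1_mul] at h
  exact h

theorem trK (φ : TState M) (y : M) (K : ℝ → ℝ) (hK : Continuous K) :
    φ.φ (cfc (fun t => K t * t) (y * star y)) = φ.φ (cfc (fun t => K t * t) (star y * y)) := by
  have h1 : IsSelfAdjoint (y * star y) := IsSelfAdjoint.mul_star_self y
  have h2 : IsSelfAdjoint (star y * y) := IsSelfAdjoint.star_mul_self y
  have e1 : cfc (fun t => K t * t) (y * star y) = cfc K (y * star y) * (y * star y) := by
    rw [cfc_mul (a := y * star y) (f := K) (g := fun t => t) (hf := hK.continuousOn)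
      (hg := continuousOn_id), cfc_id' ℝ (y * star y) h1]
  have e2 : cfc (fun t => K t * t) (star y * y) = cfc K (star y * y) * (star y * y) := by
    rw [cfc_mul (a := star y * y) (f := K) (g := fun t => t) (hf := hK.continuousOn)
      (hg := continuousOn_id), cfc_id' ℝ (star y * y) h2]
  rw [e1, e2]
  calc φ.φ (cfc K (y * star y) * (y * star y)) = φ.φ ((cfc K (y * star y) * y) * star y) := by
        rw [mul_assoc]
    _ = φ.φ ((y * cfc K (star y * y)) * star y) := by rw [inter y K hK]
    _ = φ.φ (y * (cfc K (star y * y) * star y)) := by rw [mul_assoc]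
    _ = φ.φ ((cfc K (star y * y) * star y) * y) := φ.trace _ _
    _ = _ := by rw [mul_assoc]

theorem trG (φ : TState M) (y : M) (G K : ℝ → ℝ) (G0 : ℝ) (hK : Continuous K)
    (h : ∀ t, 0 ≤ t → G t = G0 - K t * t) :
    φ.φ (cfc G (y * star y)) = φ.φ (cfc G (star y * y)) := by
  have key : ∀ z : M, 0 ≤ z → cfc G z = G0 • (1 : M) - cfc (fun t => K t * t) z := by
    intro z hz
    have hzs : IsSelfAdjoint z := IsSelfAdjoint.of_nonneg hz
    have e1 : cfc G z = cfc (fun t => G0 - K t * t) z := by
      apply cfc_congr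
      intro t ht
      exact h t (spectrum_nonneg_of_nonneg hz ht)
    rw [e1, cfc_sub (a := z) (f := fun _ => G0) (g := fun t => K t * t)
      (hf := continuousOn_const) (hg := (hK.mul continuous_id).continuousOn), cfc_const G0 z hzs,
      Algebra.algebraMap_eq_smul_one]
  rw [key _ (mul_star_self_nonneg y), key _ (star_mul_self_nonneg y), map_sub, map_sub,
    trK φ y K hK]

theorem dim_eq (φ : TState M) (σ : QTrace M) (hQ : IsQ φ σ) (x : M) (hx : IsSelfAdjoint x) :
    σ.dim (one1 x) = ⨆ n : ℕ, (φ.φ (cfc (fun t : ℝ => min 1 ((n : ℝ) * t)) x)).re := by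
  unfold QTrace.dim
  congr 1
  funext n
  rw [← one1_cfc _ (by fun_prop) x hx, hQ]
  simp [one1]

theorem alpha (φ : TState M) (σ : QTrace M) (hQ : IsQ φ σ) (y : M) (c : ℝ) (hc : 0 < c) :
    σ.dim (one1 (cfc (fun t : ℝ => max (c - t) 0) (y * star y))) =
      σ.dim (one1 (cfc (fun t : ℝ => max (c - t) 0) (star y * y))) := by
  rw [dim_eq φ σ hQ _ (IsSelfAdjoint.cfc), dim_eq φ σ hQ _ (IsSelfAdjoint.cfc)]
  congr 1
  funext n
  have h1 : IsSelfAdjoint (y * star y) := IsSelfAdjoint.mul_star_self y
  have h2 : IsSelfAdjoint (star y * y) := IsSelfAdjoint.star_mul_self y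
  have hcomp : ∀ z : M, IsSelfAdjoint z → cfc (fun t : ℝ => min 1 ((n : ℝ) * t))
      (cfc (fun t : ℝ => max (c - t) 0) z) =
      cfc (fun t : ℝ => min 1 ((n : ℝ) * max (c - t) 0)) z := by
    intro z hz
    rw [← cfc_comp (fun t : ℝ => min 1 ((n : ℝ) * t)) (fun t : ℝ => max (c - t) 0) z
      (ha := hz) (hg := (by fun_prop : Continuous fun t : ℝ => min 1 ((n : ℝ) * t)).continuousOn)
      (hf := (by fun_prop : Continuous fun t : ℝ => max (c - t) 0).continuousOn)]
    rfl
  rw [hcomp _ h1, hcomp _ h2]
  congr 1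
  rcases le_total ((n : ℝ) * c) 1 with hn | hn
  · refine trG φ y _ (fun t => (n : ℝ) * c / max t c) ((n : ℝ) * c) ?_ ?_
    · apply Continuous.div continuous_const (by fun_prop)
      intro t
      have : 0 < max t c := lt_of_lt_of_le hc (le_max_right _ _)
      exact this.ne'
    · intro t ht
      rcases le_total t c with h3 | h3
      · rw [max_eq_right h3, max_eq_left (by linarith), mul_div_assoc, div_self hc.ne', mul_one]
        rw [min_eq_right]
        · ring
        · have : (n : ℝ) * (c - t) ≤ n * c := by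
            apply mul_le_mul_of_nonneg_left (by linarith) (Nat.cast_nonneg n)
          linarith
      · have h4 : 0 < t := lt_of_lt_of_le hc h3
        rw [max_eq_left h3, max_eq_right (by linarith), mul_zero, min_eq_right zero_le_one,
          div_mul_cancel₀ _ h4.ne', sub_self]
  · have hn0 : (0 : ℝ) < n := by
      by_contra h
      have : (n : ℝ) = 0 := le_antisymm (not_lt.mp h) (Nat.cast_nonneg n)
      rw [this] at hn
      linarith
    rcases hn.eq_or_lt with h0 | h0
    · -- the same as the first case
      refine trG φ y _ (fun t => (n : ℝ) * c / max t c) ((n : ℝ) * c) ?_ ?_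
      · apply Continuous.div continuous_const (by fun_prop)
        intro t
        have : 0 < max t c := lt_of_lt_of_le hc (le_max_right _ _)
        exact this.ne'
      · intro t ht
        rcases le_total t c with h3 | h3
        · rw [max_eq_right h3, max_eq_left (by linarith), mul_div_assoc, div_self hc.ne', mul_one]
          rw [min_eq_right]
          · ring
          · have : (n : ℝ) * (c - t) ≤ n * c := by
              apply mul_le_mul_of_nonneg_left (by linarith) (Nat.cast_nonneg n)
            linarith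
        · have h4 : 0 < t := lt_of_lt_of_le hc h3
          rw [max_eq_left h3, max_eq_right (by linarith), mul_zero, min_eq_right zero_le_one,
            div_mul_cancel₀ _ h4.ne', sub_self]
    · set r : ℝ := c - 1 / n with hr
      have hr0 : 0 < r := by
        rw [hr, sub_pos, div_lt_iff₀ hn0]
        linarith
      refine trG φ y _ (fun t => (1 - min 1 ((n : ℝ) * max (c - t) 0)) / max t r) 1 ?_ ?_
      · apply Continuous.div (by fun_prop) (by fun_prop)
        intro t
        have : 0 < max t r := lt_of_lt_of_le hr0 (le_max_right _ _)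
        exact this.ne'
      · intro t ht
        rcases le_total t r with h3 | h3
        · have h4 : 1 ≤ (n : ℝ) * max (c - t) 0 := by
            have h5 : 1 / (n : ℝ) ≤ c - t := by rw [hr] at h3; linarith
            calc (1 : ℝ) = n * (1 / n) := by field_simp
              _ ≤ n * max (c - t) 0 := by
                apply mul_le_mul_of_nonneg_left _ hn0.le
                exact h5.trans (le_max_left _ _)
          rw [min_eq_left h4, sub_self, zero_div, zero_mul, sub_zero]
        · have h4 : 0 < t := lt_of_lt_of_le hr0 h3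
          rw [max_eq_left h3, div_mul_cancel₀ _ h4.ne']
          ring

/-- `cfc f P ≾ L` -/
theorem beta (P L : M) (hP : 0 ≤ P) (hL : 0 ≤ L) (c C : ℝ) (hc : 0 < c) (hC : 0 ≤ C)
    (h : c • (1 : M) ≤ P + C • L) :
    Cu (one1 (cfc (fun t : ℝ => max (c - t) 0) P)) (one1 L) := by
  have hPs : IsSelfAdjoint P := IsSelfAdjoint.of_nonneg hP
  set f : ℝ → ℝ := fun t => max (c - t) 0 with hf
  have cf : Continuous f := by rw [hf]; fun_prop
  have f0 : ∀ t, 0 ≤ f t := fun t => le_max_right _ _
  set Q : M := cfc f P with hQ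
  have hQ0 : 0 ≤ Q := cfc_nonneg fun t _ => f0 t
  set s : M := cfc (fun t => Real.sqrt (f t)) P with hs
  have hss : star s = s := (IsSelfAdjoint.cfc (f := fun t => Real.sqrt (f t)) (a := P)).star_eq
  have csf : Continuous fun t => Real.sqrt (f t) := Real.continuous_sqrt.comp cf
  have hsub : c • (1 : M) - P = cfc (fun t : ℝ => c - t) P := by
    rw [cfc_sub (a := P) (f := fun _ => c) (g := fun t => t) (hf := continuousOn_const)
      (hg := continuousOn_id), cfc_const c P hPs, cfc_id' ℝ P hPs, Algebra.algebraMap_eq_smul_one]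
  have hQQ : s * (c • (1 : M) - P) * s = Q * Q := by
    have ccs : Continuous fun t : ℝ => c - t := by fun_prop
    rw [hsub, hs, ← cfc_mul (a := P) (f := fun t => Real.sqrt (f t)) (g := fun t => c - t)
      (hf := csf.continuousOn) (hg := ccs.continuousOn),
      ← cfc_mul (a := P) (f := fun t => Real.sqrt (f t) * (c - t)) (g := fun t => Real.sqrt (f t))
      (hf := (csf.mul ccs).continuousOn) (hg := csf.continuousOn), hQ,
      ← cfc_mul (a := P) (f := f) (g := f) (hf := cf.continuousOn) (hg := cf.continuousOn)]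
    congr 1
    funext t
    have h1 : Real.sqrt (f t) * Real.sqrt (f t) = f t := Real.mul_self_sqrt (f0 t)
    calc Real.sqrt (f t) * (c - t) * Real.sqrt (f t)
        = (Real.sqrt (f t) * Real.sqrt (f t)) * (c - t) := by ring
      _ = f t * (c - t) := by rw [h1]
      _ = f t * f t := by
        rcases le_total t c with h2 | h2
        · have : f t = c - t := max_eq_left (by linarith)
          rw [this]
        · have : f t = 0 := max_eq_right (by linarith)
          rw [this, zero_mul, zero_mul]
  have hle : Q * Q ≤ s * (C • L) * s := by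
    have h1 : c • (1 : M) - P ≤ C • L := sub_le_iff_le_add'.mpr h
    have h2 := star_left_conjugate_le_conjugate h1 s
    rw [hss, hQQ] at h2
    exact h2
  have hQQ0 : 0 ≤ Q * Q := by
    have := star_mul_self_nonneg Q
    rwa [(IsSelfAdjoint.of_nonneg hQ0).star_eq] at this
  have hCL : 0 ≤ s * (C • L) * s := by
    have := star_left_conjugate_nonneg (smul_nonneg hC hL) s
    rwa [hss] at this
  -- step 1
  have c1 : Cu (one1 Q) (one1 (Q * Q)) := by
    intro ε hε
    set g : ℝ → ℝ := fun t => (Real.sqrt (max (f t) (ε / 2)))⁻¹ with hg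
    have hpos : ∀ t, 0 < max (f t) (ε / 2) := fun t => lt_of_lt_of_le (by positivity) (le_max_right _ _)
    have cg : Continuous g := by
      apply Continuous.inv₀
      · exact Real.continuous_sqrt.comp (cf.max continuous_const)
      · intro t
        exact (Real.sqrt_pos.mpr (hpos t)).ne'
    refine ⟨one1 (cfc g P), ?_⟩
    have e0 : (one1 (cfc g P)).conjTranspose = one1 (cfc g P) := by
      rw [← one1_star, (IsSelfAdjoint.cfc (f := g) (a := P)).star_eq]
    rw [e0, ← one1_mul, ← one1_mul]
    have e1 : cfc g P * (Q * Q) * cfc g P - Q = cfc (fun t => g t * (f t * f t) * g t - f t) P := by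
      rw [cfc_sub (a := P) (f := fun t => g t * (f t * f t) * g t) (g := f)
        (hf := ((cg.mul (cf.mul cf)).mul cg).continuousOn) (hg := cf.continuousOn),
        cfc_mul (a := P) (f := fun t => g t * (f t * f t)) (g := g)
        (hf := (cg.mul (cf.mul cf)).continuousOn) (hg := cg.continuousOn),
        cfc_mul (a := P) (f := g) (g := fun t => f t * f t)
        (hf := cg.continuousOn) (hg := (cf.mul cf).continuousOn),
        cfc_mul (a := P) (f := f) (g := f) (hf := cf.continuousOn) (hg := cf.continuousOn)]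
    have e2 : one1 (cfc g P * (Q * Q) * cfc g P) - one1 Q =
        one1 (cfc g P * (Q * Q) * cfc g P - Q) := (map_sub (one1H (A := M)) _ _).symm
    rw [e2, e1]
    have e3 : ‖one1 (cfc (fun t => g t * (f t * f t) * g t - f t) P)‖ ≤
        ‖cfc (fun t => g t * (f t * f t) * g t - f t) P‖ :=
      NonUnitalStarAlgHom.norm_apply_le (one1H (A := M)) _
    refine lt_of_le_of_lt e3 ?_
    refine lt_of_le_of_lt (norm_cfc_le (c := ε / 2) (by positivity) ?_) (by linarith)
    intro t _
    have h1 : g t * g t = (max (f t) (ε / 2))⁻¹ := by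
      rw [hg]
      simp only
      rw [← mul_inv, Real.mul_self_sqrt (hpos t).le]
    have h2 : g t * (f t * f t) * g t - f t = (g t * g t) * (f t * f t) - f t := by ring
    rw [h2, h1]
    rcases le_total (f t) (ε / 2) with h3 | h3
    · rw [max_eq_right h3]
      have h4 : 0 ≤ (ε / 2)⁻¹ * (f t * f t) := by
        have := f0 t
        positivity
      have h5 : (ε / 2)⁻¹ * (f t * f t) ≤ f t := by
        rw [inv_mul_le_iff₀ (by positivity)]
        exact mul_le_mul_of_nonneg_right h3 (f0 t)
      rw [Real.norm_eq_abs, abs_le]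
      constructor <;> linarith [f0 t]
    · rw [max_eq_left h3]
      have h4 : 0 < f t := lt_of_lt_of_le (by positivity) h3
      have h5 : (f t)⁻¹ * (f t * f t) - f t = 0 := by
        rw [← mul_assoc, inv_mul_cancel₀ h4.ne', one_mul, sub_self]
      rw [h5, norm_zero]
      positivity
  -- step 2
  have c2 : Cu (one1 (Q * Q)) (one1 (s * (C • L) * s)) := by
    have h1 := Pool.Agent.Helper6.RC.cuLeAddP M Unit (one1 (Q * Q)) (one1 (s * (C • L) * s)) 0 le_rfl
      (one1_nonneg hQQ0) (one1_nonneg hCL) (by
        rw [zero_smul, add_zero]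
        have := one1_nonneg (sub_nonneg.mpr hle)
        have e2 : one1 (s * (C • L) * s) - one1 (Q * Q) =
          one1 (s * (C • L) * s - Q * Q) := (map_sub (one1H (A := M)) _ _).symm
        rw [← e2] at this
        exact sub_nonneg.mp this)
    have h2 : cut (one1 (Q * Q)) 0 = one1 (Q * Q) := by
      unfold cut
      have h3 : 0 ≤ one1 (Q * Q) := one1_nonneg hQQ0
      calc cfc (fun t : ℝ => max (t - 0) 0) (one1 (Q * Q)) = cfc (fun t : ℝ => t) (one1 (Q * Q)) := by
            apply cfc_congr
            intro t ht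
            have : 0 ≤ t := spectrum_nonneg_of_nonneg h3 ht
            simp only [sub_zero]
            exact max_eq_left this
        _ = one1 (Q * Q) := cfc_id' ℝ _ (IsSelfAdjoint.of_nonneg h3)
    rw [h2] at h1
    exact h1
  -- step 3
  have c3 : Cu (one1 (s * (C • L) * s)) (one1 L) := by
    intro ε hε
    refine ⟨one1 (Real.sqrt C • s), ?_⟩
    have e0 : (one1 (Real.sqrt C • s)).conjTranspose = one1 (Real.sqrt C • s) := by
      rw [← one1_star, star_smul, hss, star_trivial]
    rw [e0, ← one1_mul, ← one1_mul]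
    have e1 : (Real.sqrt C • s) * L * (Real.sqrt C • s) = s * (C • L) * s := by
      rw [smul_mul_assoc, smul_mul_assoc, mul_smul_comm, smul_smul, Real.mul_self_sqrt hC,
        mul_smul_comm, smul_mul_assoc]
    rw [e1, sub_self, norm_zero]
    exact hε
  exact cuTransP M Unit Unit Unit _ _ _ (cuTransP M Unit Unit Unit _ _ _ c1 c2) c3

theorem lower (y L a b : M) (hL : 0 ≤ L) (h : a * y + b * L = 1) :
    ∃ c C : ℝ, 0 < c ∧ 0 ≤ C ∧ c • (1 : M) ≤ sq y + C • L := by
  have h1 : (1 : M) ≤ (2 : ℝ) • sq (a * y) + (2 : ℝ) • sq (b * L) := by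
    have e : (2 : ℝ) • sq (a * y) + (2 : ℝ) • sq (b * L) - 1 = sq (a * y - b * L) := by
      have e1 : (1 : M) = sq (a * y + b * L) := by rw [h]; simp [sq]
      rw [e1]
      unfold sq
      rw [star_add, star_sub, two_smul, two_smul]
      noncomm_ring
    have := star_mul_self_nonneg (a * y - b * L)
    rw [← sub_nonneg, e]
    exact this
  have h2 : sq (a * y) ≤ (‖a‖ ^ 2) • sq y := by
    have h3 : star a * a ≤ algebraMap ℝ M (‖a‖ ^ 2) := CStarAlgebra.star_mul_le_algebraMap_norm_sq
    have h4 := star_left_conjugate_le_conjugate h3 y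
    have e1 : star y * algebraMap ℝ M (‖a‖ ^ 2) * y = (‖a‖ ^ 2) • sq y := by
      rw [Algebra.algebraMap_eq_smul_one, mul_smul_comm, smul_mul_assoc, mul_one]
    have e2 : sq (a * y) = star y * (star a * a) * y := by
      unfold sq
      rw [star_mul]; noncomm_ring
    rw [e2, ← e1]
    exact h4
  obtain ⟨S, hS⟩ := CStarAlgebra.nonneg_iff_eq_star_mul_self.mp hL
  have h5 : L * L ≤ (‖S‖ ^ 2) • L := by
    have h3 : star (star S) * star S ≤ algebraMap ℝ M (‖star S‖ ^ 2) :=
      CStarAlgebra.star_mul_le_algebraMap_norm_sq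
    rw [star_star, norm_star] at h3
    have h4 := star_left_conjugate_le_conjugate h3 S
    have e1 : star S * algebraMap ℝ M (‖S‖ ^ 2) * S = (‖S‖ ^ 2) • L := by
      rw [Algebra.algebraMap_eq_smul_one, mul_smul_comm, smul_mul_assoc, mul_one, hS]
    have e2 : L * L = star S * (S * star S) * S := by
      rw [hS]; noncomm_ring
    rw [e2, ← e1]
    exact h4
  have h6 : sq (b * L) ≤ (‖b‖ ^ 2 * ‖S‖ ^ 2) • L := by
    have h3 : star b * b ≤ algebraMap ℝ M (‖b‖ ^ 2) := CStarAlgebra.star_mul_le_algebraMap_norm_sq
    have h4 := star_left_conjugate_le_conjugate h3 L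
    have hLs : star L = L := (IsSelfAdjoint.of_nonneg hL).star_eq
    have e1 : star L * algebraMap ℝ M (‖b‖ ^ 2) * L = (‖b‖ ^ 2) • (L * L) := by
      rw [Algebra.algebraMap_eq_smul_one, mul_smul_comm, smul_mul_assoc, mul_one, hLs]
    have e2 : sq (b * L) = star L * (star b * b) * L := by
      unfold sq
      rw [star_mul]; noncomm_ring
    rw [e2]
    refine h4.trans ?_
    rw [e1, mul_smul]
    exact smul_le_smul_of_nonneg_left h5 (by positivity)
  have hy0 : 0 ≤ sq y := star_mul_self_nonneg y
  set K : ℝ := 2 * ‖a‖ ^ 2 + 1 with hK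
  have hK0 : 0 < K := by positivity
  have h7 : (1 : M) ≤ K • sq y + (2 * (‖b‖ ^ 2 * ‖S‖ ^ 2)) • L := by
    refine h1.trans ?_
    apply add_le_add
    · calc (2 : ℝ) • sq (a * y) ≤ (2 : ℝ) • ((‖a‖ ^ 2) • sq y) :=
            smul_le_smul_of_nonneg_left h2 (by norm_num)
        _ = (2 * ‖a‖ ^ 2) • sq y := by rw [smul_smul]
        _ ≤ K • sq y := by
            rw [hK, add_smul, one_smul]
            exact le_add_of_nonneg_right hy0
    · calc (2 : ℝ) • sq (b * L) ≤ (2 : ℝ) • ((‖b‖ ^ 2 * ‖S‖ ^ 2) • L) :=
            smul_le_smul_of_nonneg_left h6 (by norm_num)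
        _ = _ := by rw [smul_smul]
  refine ⟨K⁻¹, K⁻¹ * (2 * (‖b‖ ^ 2 * ‖S‖ ^ 2)), inv_pos.mpr hK0, by positivity, ?_⟩
  have h8 := smul_le_smul_of_nonneg_left h7 (inv_pos.mpr hK0).le
  rw [smul_add, smul_smul, smul_smul, inv_mul_cancel₀ hK0.ne', one_smul] at h8
  exact h8

theorem cokerP (hM : QMonoP.{u}) : CokerP.{u} := by
  intro M _ _ _ y L hL hLI
  obtain ⟨a, b, hab⟩ := hLI
  obtain ⟨c, C, hc, hC, hle⟩ := lower y L a b hL hab
  have hz0 : 0 ≤ y * star y := mul_star_self_nonneg y
  have hzs : IsSelfAdjoint (y * star y) := IsSelfAdjoint.of_nonneg hz0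
  set f : ℝ → ℝ := fun t => max (c - t) 0 with hf
  have cf : Continuous f := by rw [hf]; fun_prop
  set L' : M := cfc f (y * star y) with hL'
  have cm : Continuous fun t : ℝ => (max c t)⁻¹ := by
    apply Continuous.inv₀ (by fun_prop)
    intro t
    have : 0 < max c t := lt_of_lt_of_le hc (le_max_left _ _)
    exact this.ne'
  set w : M := cfc (fun t : ℝ => (max c t)⁻¹) (y * star y) with hw
  have hL'0 : 0 ≤ L' := cfc_nonneg fun t _ => le_max_right _ _
  refine ⟨star y * w, w, L', hL'0, ?_, ?_⟩
  · have e1 : y * (star y * w) + L' * w = (y * star y + L') * w := by noncomm_ring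
    have e2 : y * star y + L' = cfc (fun t : ℝ => t + f t) (y * star y) := by
      rw [cfc_add (a := y * star y) (f := fun t => t) (g := f) (hf := continuousOn_id)
        (hg := cf.continuousOn), cfc_id' ℝ (y * star y) hzs]
    rw [e1, e2, hw, ← cfc_mul (a := y * star y) (f := fun t : ℝ => t + f t)
      (g := fun t : ℝ => (max c t)⁻¹) (hf := (continuous_id.add cf).continuousOn)
      (hg := cm.continuousOn)]
    have e3 : (fun t : ℝ => (t + f t) * (max c t)⁻¹) = fun _ => 1 := by
      funext t
      have h1 : t + f t = max c t := by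
        rw [hf]
        simp only
        rcases le_total t c with h2 | h2
        · rw [max_eq_left (by linarith), max_eq_left h2]; ring
        · rw [max_eq_right (by linarith), max_eq_right h2]; ring
      have : 0 < max c t := lt_of_lt_of_le hc (le_max_left _ _)
      rw [h1, mul_inv_cancel₀ this.ne']
    rw [e3]
    exact cfc_const_one ℝ _ hzs
  · intro φ σ hQ
    rw [hL', hf, alpha φ σ hQ y c hc]
    have h1 := beta (sq y) L (star_mul_self_nonneg y) hL c C hc hC hle
    exact hM M σ Unit Unit _ _ (one1_nonneg (cfc_nonneg fun t _ => le_max_right _ _))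
      (one1_nonneg hL) h1

end Coker94

theorem cokerP (hM : QMonoP.{u}) : CokerP.{u} := Coker94.cokerP hM

end RC
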